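import Mathlib

/-!
# The equitable `U_q(sl_2)`-module structure on a Leonard pair of `q`-Racah type

For every Leonard pair `A, A*` with the parameter array of the problem (over any field, for any nonzero
`a, b, c, q` with `q ^ 4 ≠ 1`, any diameter `d ≥ 0`; `q` may be a root of unity and `A^ε` need not be
diagonalizable) the vector space `V` carries an irreducible `U_q(sl_2)`-module structure with the three
identities of the problem.

`U_q(sl_2)` is defined by generators and relations (`Uq`), a module structure on `V` is an algebra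
homomorphism `Uq q →ₐ[K] Module.End K V`.  The operator `X` is diagonal in the basis (ii) of the
parameter array, with the eigenvalues `q ^ (d - 2 i)`; `Y` is lower bidiagonal and `Z` is upper
bidiagonal.
-/

set_option autoImplicit false

namespace Pool.Agent.Results.MP_dc3d2a_al.EquitableModule

universe u v

/-! ### Leonard pairs -/

section Defs

variable {K : Type u} [Field K]

/-- A square matrix is irreducible tridiagonal: entries off the three central diagonals vanish and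
all entries directly above and directly below the main diagonal are nonzero. -/
def IsIrredTridiagonal {n : ℕ} (M : Matrix (Fin n) (Fin n) K) : Prop :=
  (∀ i j : Fin n, (i : ℕ) + 1 < j ∨ (j : ℕ) + 1 < i → M i j = 0) ∧
    ∀ i j : Fin n, (i : ℕ) + 1 = j → M i j ≠ 0 ∧ M j i ≠ 0

/-- The lower bidiagonal matrix with diagonal `θ 0, …, θ d` and all subdiagonal entries `1`. -/
def lower (d : ℕ) (θ : ℕ → K) : Matrix (Fin (d + 1)) (Fin (d + 1)) K :=
  fun i j => if i = j then θ i else if (i : ℕ) = j + 1 then 1 else 0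

/-- The upper bidiagonal matrix with diagonal `θ 0, …, θ d` and superdiagonal `φ 1, …, φ d`. -/
def upper (d : ℕ) (θ φ : ℕ → K) : Matrix (Fin (d + 1)) (Fin (d + 1)) K :=
  fun i j => if i = j then θ i else if (j : ℕ) = i + 1 then φ j else 0

variable {V : Type v} [AddCommGroup V] [Module K V]

/-- `A, B` is a Leonard pair on `V` (`dim V = d + 1`). -/
def IsLeonardPair (d : ℕ) (A B : Module.End K V) : Prop :=
  (∃ b : Module.Basis (Fin (d + 1)) K V, (LinearMap.toMatrix b b A).IsDiag ∧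
      IsIrredTridiagonal (LinearMap.toMatrix b b B)) ∧
    ∃ b : Module.Basis (Fin (d + 1)) K V, (LinearMap.toMatrix b b B).IsDiag ∧
      IsIrredTridiagonal (LinearMap.toMatrix b b A)

/-- `A, B` has the parameter array `(θ_i, θ*_i (0 ≤ i ≤ d); φ_i, ϕ_i (1 ≤ i ≤ d))`. -/
structure HasParameterArray (d : ℕ) (A B : Module.End K V) (θ θ' φ ϕ : ℕ → K) : Prop where
  first : ∃ b : Module.Basis (Fin (d + 1)) K V,
    LinearMap.toMatrix b b A = lower d θ ∧ LinearMap.toMatrix b b B = upper d θ' φ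
  second : ∃ b : Module.Basis (Fin (d + 1)) K V,
    LinearMap.toMatrix b b A = lower d (fun i => θ (d - i)) ∧
      LinearMap.toMatrix b b B = upper d θ' ϕ

/-- `λ_i(x) = x q^(2i-d) + x⁻¹ q^(d-2i)` -/
def lam (q : K) (d : ℕ) (x : K) (i : ℕ) : K :=
  x * q ^ (2 * (i : ℤ) - d) + x⁻¹ * q ^ ((d : ℤ) - 2 * i)

/-- `u_i = (q^(-i) - q^i) (q^(d-i+1) - q^(i-d-1))` -/
def uu (q : K) (d : ℕ) (i : ℕ) : K :=
  (q ^ (-(i : ℤ)) - q ^ (i : ℤ)) * (q ^ ((d : ℤ) - i + 1) - q ^ ((i : ℤ) - d - 1))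

/-- `r_i(x) = q^(-i) - x q^(i-d-1)` -/
def rr (q : K) (d : ℕ) (i : ℕ) (x : K) : K := q ^ (-(i : ℤ)) - x * q ^ ((i : ℤ) - d - 1)

/-- `φ_i = (q^(d+1) / (a b)) u_i r_i(a b c) r_i(a b / c)` -/
def varphi (q : K) (d : ℕ) (a b c : K) (i : ℕ) : K :=
  q ^ ((d : ℤ) + 1) / (a * b) * uu q d i * rr q d i (a * b * c) * rr q d i (a * b / c)

/-- `ϕ_i = (a q^(d+1) / b) u_i r_i(b c / a) r_i(b / (a c))` -/
def phi (q : K) (d : ℕ) (a b c : K) (i : ℕ) : K :=
  a * q ^ ((d : ℤ) + 1) / b * uu q d i * rr q d i (b * c / a) * rr q d i (b / (a * c))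

/-- `A^ε`, defined by
`(q² - q⁻²) A^ε = q⁻¹ A A* - q A* A + (q - q⁻¹) (s_a s_b + s_c t) I`, `s_x = x + x⁻¹`,
`t = q^(d+1) + q^(-d-1)`. -/
def third (q : K) (d : ℕ) (a b c : K) (A B : Module.End K V) : Module.End K V :=
  (q ^ 2 - (q ^ 2)⁻¹)⁻¹ • (q⁻¹ • (A * B) - q • (B * A) +
    ((q - q⁻¹) * ((a + a⁻¹) * (b + b⁻¹) +
      (c + c⁻¹) * (q ^ ((d : ℤ) + 1) + q ^ (-(d : ℤ) - 1)))) • (1 : Module.End K V))

/-! ### The algebra `U_q(sl_2)` -/

/-- The generators `X, X⁻¹, Y, Z`. -/
inductive Gen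
  | X
  | Xi
  | Y
  | Z

/-- The relations of the equitable presentation. -/
inductive Rel (q : K) : FreeAlgebra K Gen → FreeAlgebra K Gen → Prop
  | x_xi : Rel q (FreeAlgebra.ι K .X * FreeAlgebra.ι K .Xi) 1
  | xi_x : Rel q (FreeAlgebra.ι K .Xi * FreeAlgebra.ι K .X) 1
  | xy : Rel q (q • (FreeAlgebra.ι K .X * FreeAlgebra.ι K .Y) -
      q⁻¹ • (FreeAlgebra.ι K .Y * FreeAlgebra.ι K .X)) ((q - q⁻¹) • 1)
  | yz : Rel q (q • (FreeAlgebra.ι K .Y * FreeAlgebra.ι K .Z) -
      q⁻¹ • (FreeAlgebra.ι K .Z * FreeAlgebra.ι K .Y)) ((q - q⁻¹) • 1)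
  | zx : Rel q (q • (FreeAlgebra.ι K .Z * FreeAlgebra.ι K .X) -
      q⁻¹ • (FreeAlgebra.ι K .X * FreeAlgebra.ι K .Z)) ((q - q⁻¹) • 1)

/-- The algebra `U_q(sl_2)`. -/
abbrev Uq (q : K) : Type u := RingQuot (Rel q)

/-- The generators in `U_q(sl_2)`. -/
def gen (q : K) (g : Gen) : Uq q := RingQuot.mkAlgHom K (Rel q) (FreeAlgebra.ι K g)

/-- A `U_q(sl_2)`-module structure on `V` is irreducible. -/
def IsIrreducible {q : K} (ρ : Uq q →ₐ[K] Module.End K V) : Prop :=
  Nontrivial V ∧ ∀ W : Submodule K V, (∀ u : Uq q, ∀ w ∈ W, ρ u w ∈ W) → W = ⊥ ∨ W = ⊤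

/-- The three identities; `A = a X + a⁻¹ Y + (c/b) [X, Y] / (q - q⁻¹)` and so on. -/
structure Identities (q : K) (d : ℕ) (a b c : K) (A B X Y Z : Module.End K V) : Prop where
  one : A = a • X + a⁻¹ • Y + (c / b / (q - q⁻¹)) • (X * Y - Y * X)
  two : B = b • Z + b⁻¹ • X + (a / c / (q - q⁻¹)) • (Z * X - X * Z)
  three : third q d a b c A B = c • Y + c⁻¹ • Z + (b / a / (q - q⁻¹)) • (Y * Z - Z * Y)

end Defs

/-! ### Leonard pairs are irreducible -/

section Irred

variable {K : Type u} [Field K] {V : Type v} [AddCommGroup V] [Module K V]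

/-- the coordinates of the image -/
theorem repr_apply {n : ℕ} (b : Module.Basis (Fin n) K V) (A : Module.End K V) (w : V) (i : Fin n) :
    b.repr (A w) i = ∑ j, LinearMap.toMatrix b b A i j * b.repr w j := by
  have h := congrFun (LinearMap.toMatrix_mulVec_repr b b A w) i
  rw [← h]
  rfl

/-- an eigenvector of an irreducible tridiagonal matrix with first coordinate zero is zero -/
theorem tri_zero {n : ℕ} (b : Module.Basis (Fin (n + 1)) K V) {A : Module.End K V}
    (hA : IsIrredTridiagonal (LinearMap.toMatrix b b A)) {μ : K} {w : V} (hw : A w = μ • w)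
    (h0 : b.repr w 0 = 0) : w = 0 := by
  have key : ∀ k : ℕ, ∀ j : Fin (n + 1), (j : ℕ) ≤ k → b.repr w j = 0 := by
    intro k
    induction k with
    | zero =>
      intro j hj
      have : j = 0 := Fin.ext (by simpa using hj)
      rw [this, h0]
    | succ k ih =>
      intro j hj
      rcases Nat.lt_or_ge (j : ℕ) (k + 1) with h | h
      · exact ih j (by omega)
      · have hjk : (j : ℕ) = k + 1 := by omega
        have hk : k < n + 1 := by have := j.2; omega
        have h1 := repr_apply b A w ⟨k, hk⟩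
        rw [hw, map_smul, Finsupp.smul_apply, ih ⟨k, hk⟩ le_rfl, smul_zero] at h1
        rw [Finset.sum_eq_single j] at h1
        · rcases mul_eq_zero.1 h1.symm with h2 | h2
          · exact absurd h2 (hA.2 ⟨k, hk⟩ j (by simpa using hjk.symm)).1
          · exact h2
        · intro i _ hij
          rcases Nat.lt_or_ge (i : ℕ) (k + 1) with h3 | h3
          · rw [ih i (by omega), mul_zero]
          · have h4 : (i : ℕ) ≠ j := fun h => hij (Fin.ext h)
            rw [hA.1 ⟨k, hk⟩ i (Or.inl (by show k + 1 < (i : ℕ); omega)), zero_mul]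
        · intro h
          exact absurd (Finset.mem_univ _) h
  have : b.repr w = 0 := by
    ext j
    exact key n j (by omega)
  exact b.repr.map_eq_zero_iff.1 this

/-- the diagonal basis -/
theorem diag_apply {n : ℕ} (b : Module.Basis (Fin n) K V) {A : Module.End K V}
    (hA : (LinearMap.toMatrix b b A).IsDiag) (i : Fin n) :
    A (b i) = LinearMap.toMatrix b b A i i • b i := by
  apply b.repr.injective
  ext j
  rw [repr_apply, map_smul, Finsupp.smul_apply, Finset.sum_eq_single i]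
  · rw [Module.Basis.repr_self, Finsupp.single_eq_same, mul_one, smul_eq_mul]
    by_cases h : i = j
    · subst h
      rw [Finsupp.single_eq_same, mul_one]
    · rw [hA (Ne.symm h), Finsupp.single_eq_of_ne (Ne.symm h), mul_zero]
  · intro k _ hk
    rw [Module.Basis.repr_self, Finsupp.single_eq_of_ne hk, mul_zero]
  · intro h
    exact absurd (Finset.mem_univ _) h

/-- the eigenvalues of `A` are distinct -/
theorem distinct {d : ℕ} {A : Module.End K V} (b b' : Module.Basis (Fin (d + 1)) K V)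
    (h1 : (LinearMap.toMatrix b b A).IsDiag)
    (h2 : IsIrredTridiagonal (LinearMap.toMatrix b' b' A)) {i j : Fin (d + 1)} (hij : i ≠ j) :
    LinearMap.toMatrix b b A i i ≠ LinearMap.toMatrix b b A j j := by
  intro he
  have hi := diag_apply b h1 i
  have hj := diag_apply b h1 j
  rw [← he] at hj
  set μ := LinearMap.toMatrix b b A i i
  set s := b'.repr (b j) 0
  set t := b'.repr (b i) 0
  have h3 : s • b i - t • b j = 0 := by
    refine tri_zero b' h2 (μ := μ) ?_ ?_
    · rw [map_sub, map_smul, map_smul, hi, hj, smul_sub, smul_comm s, smul_comm t]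
    · rw [map_sub, map_smul, map_smul, Finsupp.sub_apply, Finsupp.smul_apply, Finsupp.smul_apply,
        smul_eq_mul, smul_eq_mul]
      show s * t - t * s = 0
      ring
  have h4 : s = 0 ∧ t = 0 := by
    have h5 := congrArg b.repr h3
    rw [map_sub, map_smul, map_smul, Module.Basis.repr_self, Module.Basis.repr_self, map_zero] at h5
    have h6 := DFunLike.congr_fun h5 i
    have h7 := DFunLike.congr_fun h5 j
    rw [Finsupp.sub_apply, Finsupp.smul_apply, Finsupp.smul_apply, Finsupp.single_eq_same,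
      Finsupp.single_eq_of_ne hij, smul_zero, sub_zero] at h6
    rw [Finsupp.sub_apply, Finsupp.smul_apply, Finsupp.smul_apply, Finsupp.single_eq_same,
      Finsupp.single_eq_of_ne (Ne.symm hij), smul_zero, zero_sub] at h7
    constructor
    · simpa using h6
    · simpa using h7
  have h8 : b i = 0 := tri_zero b' h2 hi h4.2
  exact b.ne_zero i h8

/-- an invariant subspace of `A` contains the eigenvectors which appear in its elements -/
theorem mem_of_coeff {d : ℕ} {A : Module.End K V} (b : Module.Basis (Fin (d + 1)) K V)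
    (h1 : (LinearMap.toMatrix b b A).IsDiag)
    (h2 : ∀ i j : Fin (d + 1), i ≠ j →
      LinearMap.toMatrix b b A i i ≠ LinearMap.toMatrix b b A j j)
    {W : Submodule K V} (hW : ∀ w ∈ W, A w ∈ W) {w : V} (hw : w ∈ W) {i : Fin (d + 1)}
    (hi : b.repr w i ≠ 0) : b i ∈ W := by
  classical
  set μ : Fin (d + 1) → K := fun i => LinearMap.toMatrix b b A i i with hμ
  have key : ∀ S : Finset (Fin (d + 1)), i ∉ S →
      ∃ w' ∈ W, b.repr w' i ≠ 0 ∧ ∀ j ∈ S, b.repr w' j = 0 := by
    intro S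
    induction S using Finset.induction_on with
    | empty => intro _; exact ⟨w, hw, hi, fun j hj => absurd hj (Finset.notMem_empty j)⟩
    | insert a S ha ih =>
      intro hiS
      rw [Finset.mem_insert, not_or] at hiS
      obtain ⟨w', hw', h3, h4⟩ := ih hiS.2
      have hr : ∀ j, b.repr (A w' - μ a • w') j = (μ j - μ a) * b.repr w' j := by
        intro j
        rw [map_sub, map_smul, Finsupp.sub_apply, Finsupp.smul_apply, repr_apply,
          Finset.sum_eq_single j]
        · rw [smul_eq_mul, sub_mul]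
        · intro k _ hk
          rw [h1 (Ne.symm hk), zero_mul]
        · intro h
          exact absurd (Finset.mem_univ _) h
      refine ⟨A w' - μ a • w', W.sub_mem (hW _ hw') (W.smul_mem _ hw'), ?_, ?_⟩
      · rw [hr]
        exact mul_ne_zero (sub_ne_zero.2 (h2 i a hiS.1)) h3
      · intro j hj
        rw [hr]
        rcases Finset.mem_insert.1 hj with h | h
        · rw [h, sub_self, zero_mul]
        · rw [h4 j h, mul_zero]
  obtain ⟨w', hw', h3, h4⟩ := key (Finset.univ.erase i) (Finset.notMem_erase i _)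
  have h5 : w' = b.repr w' i • b i := by
    apply b.repr.injective
    ext j
    rw [map_smul, Finsupp.smul_apply, Module.Basis.repr_self]
    by_cases h : j = i
    · subst h
      rw [Finsupp.single_eq_same, smul_eq_mul, mul_one]
    · rw [h4 j (Finset.mem_erase.2 ⟨h, Finset.mem_univ _⟩), Finsupp.single_eq_of_ne h, smul_zero]
  have h6 : b i = (b.repr w' i)⁻¹ • w' := by
    have h7 := congrArg (fun x => (b.repr w' i)⁻¹ • x) h5
    simp only [smul_smul] at h7
    rw [inv_mul_cancel₀ h3, one_smul] at h7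
    exact h7.symm
  rw [h6]
  exact W.smul_mem _ hw'

/-- **A Leonard pair has no proper invariant subspaces.** -/
theorem leonard_irred {d : ℕ} {A B : Module.End K V} (h : IsLeonardPair d A B) (W : Submodule K V)
    (hA : ∀ w ∈ W, A w ∈ W) (hB : ∀ w ∈ W, B w ∈ W) : W = ⊥ ∨ W = ⊤ := by
  obtain ⟨⟨b, h1, h2⟩, ⟨b', _, h4⟩⟩ := h
  have hd := fun i j (hij : i ≠ j) => distinct b b' h1 h4 hij
  by_cases hW : W = ⊥
  · exact Or.inl hW
  · right
    obtain ⟨w, hw, hw0⟩ := W.ne_bot_iff.1 hW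
    obtain ⟨i, hi⟩ : ∃ i, b.repr w i ≠ 0 := by
      by_contra hcon
      push Not at hcon
      apply hw0
      have : b.repr w = 0 := by ext j; exact hcon j
      exact b.repr.map_eq_zero_iff.1 this
    have hbi : b i ∈ W := mem_of_coeff b h1 hd hA hw hi
    have hcol : ∀ j k : Fin (d + 1), b.repr (B (b j)) k = LinearMap.toMatrix b b B k j := by
      intro j k
      rw [repr_apply, Finset.sum_eq_single j]
      · rw [Module.Basis.repr_self, Finsupp.single_eq_same, mul_one]
      · intro l _ hl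
        rw [Module.Basis.repr_self, Finsupp.single_eq_of_ne hl, mul_zero]
      · intro h
        exact absurd (Finset.mem_univ _) h
    have hup : ∀ n : ℕ, ∀ j : Fin (d + 1), (j : ℕ) = i + n → b j ∈ W := by
      intro n
      induction n with
      | zero => intro j hj; rwa [Fin.ext hj]
      | succ n ih =>
        intro j hj
        have hk : (i : ℕ) + n < d + 1 := by have := j.2; omega
        have h5 := ih ⟨i + n, hk⟩ rfl
        refine mem_of_coeff b h1 hd hA (hB _ h5) ?_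
        rw [hcol]
        exact (h2.2 ⟨i + n, hk⟩ j (by show (i : ℕ) + n + 1 = j; omega)).2
    have hdown : ∀ n : ℕ, ∀ j : Fin (d + 1), (j : ℕ) + n = i → b j ∈ W := by
      intro n
      induction n with
      | zero => intro j hj; rwa [show j = i from Fin.ext hj]
      | succ n ih =>
        intro j hj
        have hk : (j : ℕ) + 1 < d + 1 := by have := i.2; omega
        have h5 := ih ⟨j + 1, hk⟩ (by show (j : ℕ) + 1 + n = i; omega)
        refine mem_of_coeff b h1 hd hA (hB _ h5) ?_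
        rw [hcol]
        exact (h2.2 j ⟨j + 1, hk⟩ rfl).1
    have hall : ∀ j, b j ∈ W := by
      intro j
      rcases Nat.lt_or_ge (j : ℕ) i with h5 | h5
      · exact hdown (i - j) j (by omega)
      · exact hup (j - i) j (by omega)
    rw [eq_top_iff, ← b.span_eq, Submodule.span_le]
    rintro _ ⟨j, rfl⟩
    exact hall j

/-- the second split sequence has no zeros -/
theorem split_ne {d : ℕ} {A B : Module.End K V} (h : IsLeonardPair d A B) {θ θ' ϕ : ℕ → K}
    (b : Module.Basis (Fin (d + 1)) K V) (hA : LinearMap.toMatrix b b A = lower d θ)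
    (hB : LinearMap.toMatrix b b B = upper d θ' ϕ) {k : ℕ} (hk : 1 ≤ k) (hkd : k ≤ d) :
    ϕ k ≠ 0 := by
  intro h0
  let W : Submodule K V :=
    { carrier := {w | ∀ j : Fin (d + 1), (j : ℕ) < k → b.repr w j = 0}
      zero_mem' := fun j _ => by simp
      add_mem' := fun {x y} hx hy j hj => by
        rw [map_add, Finsupp.add_apply, hx j hj, hy j hj, add_zero]
      smul_mem' := fun c x hx j hj => by
        rw [map_smul, Finsupp.smul_apply, hx j hj, smul_zero] }
  have hWm : ∀ w, w ∈ W ↔ ∀ j : Fin (d + 1), (j : ℕ) < k → b.repr w j = 0 := fun w => Iff.rfl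
  have hWA : ∀ w ∈ W, A w ∈ W := by
    intro w hw j hj
    rw [repr_apply, hA]
    refine Finset.sum_eq_zero fun i _ => ?_
    by_cases hi : (i : ℕ) < k
    · rw [hw i hi, mul_zero]
    · have h1 : j ≠ i := fun h => hi (h ▸ hj)
      rw [lower, if_neg h1, if_neg (by omega), zero_mul]
  have hWB : ∀ w ∈ W, B w ∈ W := by
    intro w hw j hj
    rw [repr_apply, hB]
    refine Finset.sum_eq_zero fun i _ => ?_
    by_cases hi : (i : ℕ) < k
    · rw [hw i hi, mul_zero]
    · have h1 : j ≠ i := fun h => hi (h ▸ hj)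
      rw [upper, if_neg h1]
      split_ifs with h2
      · have : (i : ℕ) = k := by omega
        rw [this, h0, zero_mul]
      · rw [zero_mul]
  rcases leonard_irred h W hWA hWB with h1 | h1
  · have h2 : b ⟨k, by omega⟩ ∈ W := by
      intro j hj
      rw [Module.Basis.repr_self, Finsupp.single_eq_of_ne]
      intro h
      rw [h] at hj
      exact absurd hj (lt_irrefl k)
    rw [h1, Submodule.mem_bot] at h2
    exact b.ne_zero _ h2
  · have h2 : b 0 ∈ W := by rw [h1]; exact Submodule.mem_top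
    have h3 := h2 0 (by show 0 < k; omega)
    rw [Module.Basis.repr_self, Finsupp.single_eq_same] at h3
    exact one_ne_zero h3

end Irred

/-! ### The module structure -/

section Main

variable {K : Type u} [Field K] {V : Type v} [AddCommGroup V] [Module K V]

/-- basis vectors with integer indices, zero outside the range -/
noncomputable def vec {d : ℕ} (b : Module.Basis (Fin (d + 1)) K V) (n : ℤ) : V :=
  if h : 0 ≤ n ∧ n < d + 1 then b ⟨n.toNat, by omega⟩ else 0

theorem vec_coe {d : ℕ} (b : Module.Basis (Fin (d + 1)) K V) (i : Fin (d + 1)) :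
    vec b ((i : ℕ) : ℤ) = b i := by
  have h : (0 : ℤ) ≤ (i : ℕ) ∧ ((i : ℕ) : ℤ) < d + 1 := by have := i.2; omega
  rw [vec, dif_pos h]
  congr 1

theorem vec_out {d : ℕ} (b : Module.Basis (Fin (d + 1)) K V) {n : ℤ}
    (h : ¬ (0 ≤ n ∧ n < d + 1)) : vec b n = 0 := by
  rw [vec, dif_neg h]

theorem repr_vec {d : ℕ} (b : Module.Basis (Fin (d + 1)) K V) (n : ℤ) (i : Fin (d + 1)) :
    b.repr (vec b n) i = if ((i : ℕ) : ℤ) = n then 1 else 0 := by
  unfold vec
  by_cases h : 0 ≤ n ∧ n < d + 1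
  · rw [dif_pos h, Module.Basis.repr_self, Finsupp.single_apply]
    by_cases h1 : ((i : ℕ) : ℤ) = n
    · rw [if_pos h1, if_pos]
      apply Fin.ext
      show n.toNat = i
      omega
    · rw [if_neg h1, if_neg]
      intro h2
      apply h1
      have h3 : n.toNat = i := congrArg Fin.val h2
      omega
  · rw [dif_neg h, map_zero, Finsupp.zero_apply, if_neg]
    intro h1
    apply h
    have := i.2
    omega

/-- tridiagonal operators -/
noncomputable def op {d : ℕ} (b : Module.Basis (Fin (d + 1)) K V) (f g h : ℤ → K) :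
    Module.End K V :=
  b.constr K (fun i => f (i : ℕ) • vec b (i : ℕ) + g (i : ℕ) • vec b ((i : ℕ) + 1) +
    h (i : ℕ) • vec b ((i : ℕ) - 1))

theorem op_vec {d : ℕ} (b : Module.Basis (Fin (d + 1)) K V) {f g h : ℤ → K} (hg : g (-1) = 0)
    (hh : h (d + 1) = 0) (n : ℤ) :
    op b f g h (vec b n) = f n • vec b n + g n • vec b (n + 1) + h n • vec b (n - 1) := by
  by_cases hn : 0 ≤ n ∧ n < d + 1
  · obtain ⟨i, hi⟩ : ∃ i : Fin (d + 1), n = ((i : ℕ) : ℤ) :=
      ⟨⟨n.toNat, by omega⟩, by show n = (n.toNat : ℤ); omega⟩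
    subst hi
    rw [vec_coe, op, Module.Basis.constr_basis, vec_coe]
  · rw [vec_out b hn, map_zero, smul_zero, zero_add]
    by_cases h1 : n = -1
    · subst h1
      rw [hg, zero_smul, vec_out b (n := -1 - 1) (by omega), smul_zero, add_zero]
    · by_cases h2 : n = d + 1
      · subst h2
        rw [hh, zero_smul, vec_out b (n := (d : ℤ) + 1 + 1) (by omega), smul_zero, add_zero]
      · rw [vec_out b (n := n + 1) (by omega), vec_out b (n := n - 1) (by omega), smul_zero,
          smul_zero, add_zero]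

theorem lower_vec {d : ℕ} (b : Module.Basis (Fin (d + 1)) K V) {A : Module.End K V} {θ : ℕ → K}
    (hA : LinearMap.toMatrix b b A = lower d θ) (i : Fin (d + 1)) :
    A (vec b (i : ℕ)) = θ i • vec b (i : ℕ) + vec b ((i : ℕ) + 1) := by
  apply b.repr.injective
  ext j
  rw [repr_apply, hA, Finset.sum_eq_single i]
  · rw [repr_vec, if_pos rfl, mul_one, map_add, map_smul, Finsupp.add_apply, Finsupp.smul_apply,
      repr_vec, repr_vec, lower]
    by_cases h : j = i
    · subst h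
      rw [if_pos rfl, if_pos rfl, if_neg (by omega), smul_eq_mul, mul_one, add_zero]
    · rw [if_neg h, if_neg (c := ((j : ℕ) : ℤ) = (i : ℕ)) (fun h1 => h (Fin.ext (by omega))),
        smul_zero, zero_add]
      by_cases h2 : (j : ℕ) = i + 1
      · rw [if_pos h2, if_pos (by omega)]
      · rw [if_neg h2, if_neg (by omega)]
  · intro k _ hk
    rw [repr_vec, if_neg (fun h1 => hk (Fin.ext (by omega))), mul_zero]
  · intro h
    exact absurd (Finset.mem_univ _) h

theorem upper_vec {d : ℕ} (b : Module.Basis (Fin (d + 1)) K V) {B : Module.End K V}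
    {θ ϕ : ℕ → K} (hB : LinearMap.toMatrix b b B = upper d θ ϕ) (i : Fin (d + 1)) :
    B (vec b (i : ℕ)) = θ i • vec b (i : ℕ) + ϕ i • vec b ((i : ℕ) - 1) := by
  apply b.repr.injective
  ext j
  rw [repr_apply, hB, Finset.sum_eq_single i]
  · rw [repr_vec, if_pos rfl, mul_one, map_add, map_smul, map_smul, Finsupp.add_apply,
      Finsupp.smul_apply, Finsupp.smul_apply, repr_vec, repr_vec, upper]
    by_cases h : j = i
    · subst h
      rw [if_pos rfl, if_pos rfl, if_neg (by omega), smul_eq_mul, mul_one, smul_zero, add_zero]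
    · rw [if_neg h, if_neg (c := ((j : ℕ) : ℤ) = (i : ℕ)) (fun h1 => h (Fin.ext (by omega))),
        smul_zero, zero_add]
      by_cases h2 : (i : ℕ) = j + 1
      · rw [if_pos h2, if_pos (by omega), smul_eq_mul, mul_one]
      · rw [if_neg h2, if_neg (by omega), smul_zero]
  · intro k _ hk
    rw [repr_vec, if_neg (fun h1 => hk (Fin.ext (by omega))), mul_zero]
  · intro h
    exact absurd (Finset.mem_univ _) h

/-- `q ^ (2 n - d)` -/
def sc (q : K) (d : ℕ) (n : ℤ) : K := (q ^ n) ^ 2 * q / q ^ ((d : ℤ) + 1)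

/-- the denominators -/
def dc (q : K) (d : ℕ) (a b c : K) (n : ℤ) : K :=
  a⁻¹ - c / b * q ^ ((d : ℤ) + 1) / (q ^ n) ^ 2

/-- the product of the two off-diagonal coefficients -/
def pc (q : K) (d : ℕ) (n : ℤ) : K :=
  (1 - (q ^ n) ^ 2) * (1 - (q ^ n) ^ 2 / (q ^ ((d : ℤ) + 1)) ^ 2)

/-- the coefficients of `Y` -/
noncomputable def yc (q : K) (d : ℕ) (a b c : K) (n : ℤ) : K :=
  if n = 0 then 0 else (dc q d a b c n)⁻¹

/-- the coefficients of `Z` -/
def zc (q : K) (d : ℕ) (a b c : K) (n : ℤ) : K := pc q d n * dc q d a b c n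

/-- the coefficients of `A*` -/
def fc (q : K) (d : ℕ) (a b c : K) (n : ℤ) : K :=
  zc q d a b c n * (b - a / c * q ^ ((d : ℤ) + 1) / (q ^ n) ^ 2)

theorem phi_eq {q : K} (hq : q ≠ 0) (d : ℕ) {a b c : K} (ha : a ≠ 0) (hb : b ≠ 0) (hc : c ≠ 0)
    (i : ℕ) : phi q d a b c i = fc q d a b c i := by
  have h1 : q ^ (-(i : ℤ)) = (q ^ (i : ℤ))⁻¹ := zpow_neg _ _
  have h2 : q ^ ((i : ℤ) - d - 1) = q ^ (i : ℤ) / q ^ ((d : ℤ) + 1) := by
    rw [← zpow_sub₀ hq]; congr 1; ring
  have h3 : q ^ ((d : ℤ) - i + 1) = q ^ ((d : ℤ) + 1) / q ^ (i : ℤ) := by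
    rw [← zpow_sub₀ hq]; congr 1; ring
  have hg : q ^ (i : ℤ) ≠ 0 := zpow_ne_zero _ hq
  have hT : q ^ ((d : ℤ) + 1) ≠ 0 := zpow_ne_zero _ hq
  rw [phi, fc, zc, uu, rr, rr, pc, dc, h1, h2, h3]
  generalize q ^ (i : ℤ) = g at *
  generalize q ^ ((d : ℤ) + 1) = T at *
  field_simp
  ring

/-! the operators -/

/-- `X` -/
noncomputable def opX (q : K) {d : ℕ} (b : Module.Basis (Fin (d + 1)) K V) : Module.End K V :=
  op b (fun n => (sc q d n)⁻¹) (fun _ => 0) (fun _ => 0)

/-- `X⁻¹` -/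
noncomputable def opXi (q : K) {d : ℕ} (b : Module.Basis (Fin (d + 1)) K V) : Module.End K V :=
  op b (fun n => sc q d n) (fun _ => 0) (fun _ => 0)

/-- `Y` -/
noncomputable def opY (q a b c : K) {d : ℕ} (v : Module.Basis (Fin (d + 1)) K V) :
    Module.End K V :=
  op v (fun n => sc q d n) (fun n => yc q d a b c (n + 1)) (fun _ => 0)

/-- `Z` -/
noncomputable def opZ (q a b c : K) {d : ℕ} (v : Module.Basis (Fin (d + 1)) K V) :
    Module.End K V :=
  op v (fun n => sc q d n) (fun _ => 0) (fun n => zc q d a b c n)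

theorem sc_succ {q : K} (hq : q ≠ 0) (d : ℕ) (n : ℤ) : sc q d (n + 1) = q ^ 2 * sc q d n := by
  rw [sc, sc, zpow_add₀ hq, zpow_one]; ring

theorem sc_pred {q : K} (hq : q ≠ 0) (d : ℕ) (n : ℤ) :
    sc q d (n - 1) = (q ^ 2)⁻¹ * sc q d n := by
  have h := sc_succ hq d (n - 1)
  rw [sub_add_cancel] at h
  rw [h, inv_mul_cancel_left₀ (pow_ne_zero 2 hq)]

theorem sc_ne {q : K} (hq : q ≠ 0) (d : ℕ) (n : ℤ) : sc q d n ≠ 0 := by
  rw [sc]
  exact div_ne_zero (mul_ne_zero (pow_ne_zero 2 (zpow_ne_zero _ hq)) hq) (zpow_ne_zero _ hq)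

theorem pc_zero {q : K} (d : ℕ) : pc q d 0 = 0 := by
  rw [pc, zpow_zero]; ring

theorem pc_last {q : K} (hq : q ≠ 0) (d : ℕ) : pc q d (d + 1) = 0 := by
  have hT : q ^ ((d : ℤ) + 1) ≠ 0 := zpow_ne_zero _ hq
  rw [pc, div_self (pow_ne_zero 2 hT)]; ring

theorem zc_last {q : K} (hq : q ≠ 0) (d : ℕ) (a b c : K) : zc q d a b c (d + 1) = 0 := by
  rw [zc, pc_last hq, zero_mul]

theorem yc_zero (q : K) (d : ℕ) (a b c : K) : yc q d a b c 0 = 0 := by
  rw [yc, if_pos rfl]

theorem opX_vec {q : K} {d : ℕ} (b : Module.Basis (Fin (d + 1)) K V) (n : ℤ) :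
    opX q b (vec b n) = (sc q d n)⁻¹ • vec b n := by
  rw [opX, op_vec b rfl rfl, zero_smul, zero_smul, add_zero, add_zero]

theorem opXi_vec {q : K} {d : ℕ} (b : Module.Basis (Fin (d + 1)) K V) (n : ℤ) :
    opXi q b (vec b n) = sc q d n • vec b n := by
  rw [opXi, op_vec b rfl rfl, zero_smul, zero_smul, add_zero, add_zero]

theorem opY_vec {q a b c : K} {d : ℕ} (v : Module.Basis (Fin (d + 1)) K V) (n : ℤ) :
    opY q a b c v (vec v n) = sc q d n • vec v n + yc q d a b c (n + 1) • vec v (n + 1) := by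
  rw [opY, op_vec v (by rw [neg_add_cancel, yc_zero]) rfl, zero_smul, add_zero]

theorem opZ_vec {q a b c : K} (hq : q ≠ 0) {d : ℕ} (v : Module.Basis (Fin (d + 1)) K V) (n : ℤ) :
    opZ q a b c v (vec v n) = sc q d n • vec v n + zc q d a b c n • vec v (n - 1) := by
  rw [opZ, op_vec v rfl (zc_last hq d a b c), zero_smul, add_zero]

/-- endomorphisms which agree on the vectors agree -/
theorem end_ext {d : ℕ} (b : Module.Basis (Fin (d + 1)) K V) {P Q : Module.End K V}
    (h : ∀ i : Fin (d + 1), P (vec b (i : ℕ)) = Q (vec b (i : ℕ))) : P = Q := by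
  refine b.ext fun i => ?_
  rw [← vec_coe]
  exact h i

/-- the product of the coefficients -/
theorem yz_prod {q a b c : K} {d : ℕ} (hq : q ≠ 0)
    (hD : ∀ k : ℕ, 1 ≤ k → k ≤ d → dc q d a b c k ≠ 0) {n : ℤ} (h0 : 0 ≤ n) (h1 : n ≤ d + 1) :
    yc q d a b c n * zc q d a b c n = pc q d n := by
  by_cases h2 : n = 0
  · rw [h2, yc_zero, zero_mul, pc_zero]
  · by_cases h3 : n = d + 1
    · rw [h3, zc_last hq, mul_zero, pc_last hq]
    · have h4 := hD n.toNat (by omega) (by omega)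
      rw [show ((n.toNat : ℕ) : ℤ) = n by omega] at h4
      rw [yc, if_neg h2, zc, mul_comm (pc q d n), inv_mul_cancel_left₀ h4]

section Rels

variable {q a b c : K} {d : ℕ} (hq : q ≠ 0) (v : Module.Basis (Fin (d + 1)) K V)

include hq

theorem rel_x_xi : opX q v * opXi q v = 1 := by
  refine end_ext v fun i => ?_
  rw [Module.End.mul_apply, opXi_vec, map_smul, opX_vec, smul_smul, mul_inv_cancel₀ (sc_ne hq d _),
    one_smul, Module.End.one_apply]

theorem rel_xi_x : opXi q v * opX q v = 1 := by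
  refine end_ext v fun i => ?_
  rw [Module.End.mul_apply, opX_vec, map_smul, opXi_vec, smul_smul, inv_mul_cancel₀ (sc_ne hq d _),
    one_smul, Module.End.one_apply]

theorem rel_xy : q • (opX q v * opY q a b c v) - q⁻¹ • (opY q a b c v * opX q v) =
    (q - q⁻¹) • 1 := by
  refine end_ext v fun i => ?_
  have hs := sc_ne hq d (i : ℕ)
  simp only [LinearMap.sub_apply, LinearMap.smul_apply, Module.End.mul_apply,
    Module.End.one_apply, opX_vec, opY_vec, map_add, map_smul]
  rw [sc_succ hq]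
  match_scalars
  · field_simp
  · field_simp
    ring

theorem rel_zx : q • (opZ q a b c v * opX q v) - q⁻¹ • (opX q v * opZ q a b c v) =
    (q - q⁻¹) • 1 := by
  refine end_ext v fun i => ?_
  have hs := sc_ne hq d (i : ℕ)
  simp only [LinearMap.sub_apply, LinearMap.smul_apply, Module.End.mul_apply,
    Module.End.one_apply, opX_vec, opZ_vec hq, map_add, map_smul]
  rw [sc_pred hq]
  match_scalars
  · field_simp
  · field_simp
    ring

theorem rel_yz (hD : ∀ k : ℕ, 1 ≤ k → k ≤ d → dc q d a b c k ≠ 0) :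
    q • (opY q a b c v * opZ q a b c v) - q⁻¹ • (opZ q a b c v * opY q a b c v) =
    (q - q⁻¹) • 1 := by
  refine end_ext v fun i => ?_
  have hi := i.2
  have h1 := yz_prod (a := a) (b := b) (c := c) hq hD (n := (i : ℕ)) (by omega) (by omega)
  have h2 := yz_prod (a := a) (b := b) (c := c) hq hD (n := (i : ℕ) + 1) (by omega) (by omega)
  simp only [LinearMap.sub_apply, LinearMap.smul_apply, Module.End.mul_apply,
    Module.End.one_apply, opY_vec, opZ_vec hq, map_add, map_smul, sub_add_cancel,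
    add_sub_cancel_right]
  rw [sc_pred hq, sc_succ hq]
  have hT : q ^ ((d : ℤ) + 1) ≠ 0 := zpow_ne_zero _ hq
  have hg : q ^ ((i : ℕ) : ℤ) ≠ 0 := zpow_ne_zero _ hq
  rw [pc, zpow_add₀ hq, zpow_one] at h2
  rw [pc] at h1
  rw [sc]
  generalize yc q d a b c (i : ℕ) = y at *
  generalize zc q d a b c (i : ℕ) = z at *
  generalize yc q d a b c ((i : ℕ) + 1) = y' at *
  generalize zc q d a b c ((i : ℕ) + 1) = z' at *
  generalize q ^ ((i : ℕ) : ℤ) = g at *
  generalize q ^ ((d : ℤ) + 1) = T at *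
  match_scalars
  · have hkey : q * ((g ^ 2 * q / T) ^ 2 + (1 - g ^ 2) * (1 - g ^ 2 / T ^ 2)) -
        q⁻¹ * ((g ^ 2 * q / T) ^ 2 + (1 - (g * q) ^ 2) * (1 - (g * q) ^ 2 / T ^ 2)) = q - q⁻¹ := by
      field_simp
      ring
    linear_combination hkey + q * h1 - q⁻¹ * h2
  · field_simp
    ring
  · field_simp
    ring

end Rels

/-! the three identities -/

section Ids

variable {q a b c : K} {d : ℕ} (hq : q ≠ 0) (ha : a ≠ 0) (hb : b ≠ 0) (hc : c ≠ 0)
  (hq2 : q ^ 2 ≠ 1) (v : Module.Basis (Fin (d + 1)) K V)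

theorem qq_ne {q : K} (hq : q ≠ 0) (hq2 : q ^ 2 ≠ 1) : q - q⁻¹ ≠ 0 := by
  intro h
  apply hq2
  field_simp at h
  linear_combination h

theorem yc_mul_dc (hD : ∀ k : ℕ, 1 ≤ k → k ≤ d → dc q d a b c k ≠ 0) (i : Fin (d + 1)) :
    (yc q d a b c ((i : ℕ) + 1) * dc q d a b c ((i : ℕ) + 1)) • vec v ((i : ℕ) + 1) =
      vec v ((i : ℕ) + 1) := by
  by_cases h : (i : ℕ) + 1 < d + 1
  · have h1 := hD ((i : ℕ) + 1) (by omega) (by omega)
    push_cast at h1
    rw [yc, if_neg (by omega), inv_mul_cancel₀ h1, one_smul]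
  · rw [vec_out v (n := (i : ℕ) + 1) (by omega), smul_zero]

include hq ha hb hc hq2

omit hc in
theorem id_one (hD : ∀ k : ℕ, 1 ≤ k → k ≤ d → dc q d a b c k ≠ 0) {A : Module.End K V}
    (hA : LinearMap.toMatrix v v A = lower d (fun i => lam q d a (d - i))) :
    A = a • opX q v + a⁻¹ • opY q a b c v +
      (c / b / (q - q⁻¹)) • (opX q v * opY q a b c v - opY q a b c v * opX q v) := by
  refine end_ext v fun i => ?_
  have hqq := qq_ne hq hq2
  have hi := i.2
  have hs := sc_ne hq d (i : ℕ)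
  have h1 := yc_mul_dc v hD i
  have h2 : lam q d a (d - i) = a * (sc q d (i : ℕ))⁻¹ + a⁻¹ * sc q d (i : ℕ) := by
    have h3 : sc q d (i : ℕ) = q ^ (2 * ((i : ℕ) : ℤ) - d) := by
      rw [sc, ← zpow_natCast, ← zpow_mul, ← zpow_add_one₀ hq, ← zpow_sub₀ hq]
      congr 1
      push_cast
      ring
    rw [lam, h3, ← zpow_neg, Nat.cast_sub (by omega)]
    congr 3 <;> ring
  rw [lower_vec v hA, ← h1]
  simp only [LinearMap.sub_apply, LinearMap.add_apply, LinearMap.smul_apply,
    Module.End.mul_apply, opX_vec, opY_vec, map_add, map_smul]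
  rw [h2, sc_succ hq]
  have h4 : dc q d a b c ((i : ℕ) + 1) = a⁻¹ - c / b * q⁻¹ * (sc q d (i : ℕ))⁻¹ := by
    rw [dc, sc, zpow_add₀ hq (i : ℕ) 1, zpow_one]
    have hT : q ^ ((d : ℤ) + 1) ≠ 0 := zpow_ne_zero _ hq
    have hg : q ^ ((i : ℕ) : ℤ) ≠ 0 := zpow_ne_zero _ hq
    generalize q ^ ((i : ℕ) : ℤ) = g at *
    generalize q ^ ((d : ℤ) + 1) = T at *
    field_simp
  rw [h4]
  generalize yc q d a b c ((i : ℕ) + 1) = y at *
  generalize sc q d (i : ℕ) = s at *
  match_scalars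
  · field_simp
    ring
  · field_simp
    ring

omit ha hb hc hq2 in
theorem lam_b (i : Fin (d + 1)) :
    lam q d b i = b * sc q d (i : ℕ) + b⁻¹ * (sc q d (i : ℕ))⁻¹ := by
  have h3 : sc q d (i : ℕ) = q ^ (2 * ((i : ℕ) : ℤ) - d) := by
    rw [sc, ← zpow_natCast, ← zpow_mul, ← zpow_add_one₀ hq, ← zpow_sub₀ hq]
    congr 1
    push_cast
    ring
  rw [lam, h3, ← zpow_neg]
  congr 3
  ring

theorem id_two {B : Module.End K V}
    (hB : LinearMap.toMatrix v v B = upper d (lam q d b) (phi q d a b c)) :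
    B = b • opZ q a b c v + b⁻¹ • opX q v +
      (a / c / (q - q⁻¹)) • (opZ q a b c v * opX q v - opX q v * opZ q a b c v) := by
  refine end_ext v fun i => ?_
  have hqq := qq_ne hq hq2
  have hs := sc_ne hq d (i : ℕ)
  rw [upper_vec v hB, phi_eq hq d ha hb hc, lam_b hq]
  simp only [LinearMap.sub_apply, LinearMap.add_apply, LinearMap.smul_apply,
    Module.End.mul_apply, opX_vec, opZ_vec hq, map_add, map_smul]
  rw [sc_pred hq, fc]
  have h4 : b - a / c * q ^ ((d : ℤ) + 1) / (q ^ ((i : ℕ) : ℤ)) ^ 2 =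
      b - a / c * q * (sc q d (i : ℕ))⁻¹ := by
    rw [sc]
    have hT : q ^ ((d : ℤ) + 1) ≠ 0 := zpow_ne_zero _ hq
    have hg : q ^ ((i : ℕ) : ℤ) ≠ 0 := zpow_ne_zero _ hq
    generalize q ^ ((i : ℕ) : ℤ) = g at *
    generalize q ^ ((d : ℤ) + 1) = T at *
    field_simp
  rw [h4]
  generalize zc q d a b c (i : ℕ) = z at *
  generalize sc q d (i : ℕ) = s at *
  match_scalars
  · field_simp
    ring
  · field_simp
    ring

omit hc in
theorem A_vec {A : Module.End K V}
    (hA : A = a • opX q v + a⁻¹ • opY q a b c v +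
      (c / b / (q - q⁻¹)) • (opX q v * opY q a b c v - opY q a b c v * opX q v)) (n : ℤ) :
    A (vec v n) = (a * (sc q d n)⁻¹ + a⁻¹ * sc q d n) • vec v n +
      (yc q d a b c (n + 1) * (a⁻¹ - c / b * q⁻¹ * (sc q d n)⁻¹)) • vec v (n + 1) := by
  have hqq := qq_ne hq hq2
  have hs := sc_ne hq d n
  rw [hA]
  simp only [LinearMap.sub_apply, LinearMap.add_apply, LinearMap.smul_apply,
    Module.End.mul_apply, opX_vec, opY_vec, map_add, map_smul]
  rw [sc_succ hq]
  generalize yc q d a b c (n + 1) = y at *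
  generalize sc q d n = s at *
  match_scalars
  · field_simp
    ring
  · field_simp
    ring

omit ha in
theorem B_vec {B : Module.End K V}
    (hB : B = b • opZ q a b c v + b⁻¹ • opX q v +
      (a / c / (q - q⁻¹)) • (opZ q a b c v * opX q v - opX q v * opZ q a b c v)) (n : ℤ) :
    B (vec v n) = (b * sc q d n + b⁻¹ * (sc q d n)⁻¹) • vec v n +
      (zc q d a b c n * (b - a / c * q * (sc q d n)⁻¹)) • vec v (n - 1) := by
  have hqq := qq_ne hq hq2
  have hs := sc_ne hq d n
  rw [hB]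
  simp only [LinearMap.sub_apply, LinearMap.add_apply, LinearMap.smul_apply,
    Module.End.mul_apply, opX_vec, opZ_vec hq, map_add, map_smul]
  rw [sc_pred hq]
  generalize zc q d a b c n = z at *
  generalize sc q d n = s at *
  match_scalars
  · field_simp
    ring
  · field_simp
    ring

theorem id_three (hq4 : q ^ 4 ≠ 1) (hD : ∀ k : ℕ, 1 ≤ k → k ≤ d → dc q d a b c k ≠ 0)
    {A B : Module.End K V}
    (hA : A = a • opX q v + a⁻¹ • opY q a b c v +
      (c / b / (q - q⁻¹)) • (opX q v * opY q a b c v - opY q a b c v * opX q v))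
    (hB : B = b • opZ q a b c v + b⁻¹ • opX q v +
      (a / c / (q - q⁻¹)) • (opZ q a b c v * opX q v - opX q v * opZ q a b c v)) :
    third q d a b c A B = c • opY q a b c v + c⁻¹ • opZ q a b c v +
      (b / a / (q - q⁻¹)) • (opY q a b c v * opZ q a b c v - opZ q a b c v * opY q a b c v) := by
  refine end_ext v fun i => ?_
  have hqq := qq_ne hq hq2
  have hq4' : q ^ 2 - (q ^ 2)⁻¹ ≠ 0 := by
    intro h
    apply hq4
    field_simp at h
    linear_combination h
  have hi := i.2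
  have h1 := yz_prod (a := a) (b := b) (c := c) hq hD (n := (i : ℕ)) (by omega) (by omega)
  have h2 := yz_prod (a := a) (b := b) (c := c) hq hD (n := (i : ℕ) + 1) (by omega) (by omega)
  rw [third, eq_comm, LinearMap.smul_apply, ← inv_smul_eq_iff₀ (inv_ne_zero hq4'), inv_inv]
  simp only [LinearMap.sub_apply, LinearMap.add_apply, LinearMap.smul_apply,
    Module.End.mul_apply, Module.End.one_apply, opY_vec, opZ_vec hq,
    A_vec hq ha hb hq2 v hA, B_vec hq hb hc hq2 v hB, map_add, map_smul, sub_add_cancel,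
    add_sub_cancel_right]
  rw [sc_pred hq, sc_succ hq]
  have hT : q ^ ((d : ℤ) + 1) ≠ 0 := zpow_ne_zero _ hq
  have hT' : q ^ (-(d : ℤ) - 1) = (q ^ ((d : ℤ) + 1))⁻¹ := by
    rw [← zpow_neg]; congr 1; ring
  have hg : q ^ ((i : ℕ) : ℤ) ≠ 0 := zpow_ne_zero _ hq
  rw [hT']
  rw [pc, zpow_add₀ hq (i : ℕ) 1, zpow_one] at h2
  rw [pc] at h1
  rw [sc]
  generalize yc q d a b c (i : ℕ) = y at *
  generalize zc q d a b c (i : ℕ) = z at *
  generalize yc q d a b c ((i : ℕ) + 1) = y' at *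
  generalize zc q d a b c ((i : ℕ) + 1) = z' at *
  generalize q ^ ((i : ℕ) : ℤ) = g at *
  generalize q ^ ((d : ℤ) + 1) = T at *
  match_scalars
  · have hkey : (q ^ 2 - (q ^ 2)⁻¹) *
        (c * (g ^ 2 * q / T) + c⁻¹ * (g ^ 2 * q / T) +
          b / a / (q - q⁻¹) * ((1 - g ^ 2) * (1 - g ^ 2 / T ^ 2) -
            (1 - (g * q) ^ 2) * (1 - (g * q) ^ 2 / T ^ 2))) =
        q⁻¹ * ((b * (g ^ 2 * q / T) + b⁻¹ * (g ^ 2 * q / T)⁻¹) *
            (a * (g ^ 2 * q / T)⁻¹ + a⁻¹ * (g ^ 2 * q / T)) +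
          (1 - g ^ 2) * (1 - g ^ 2 / T ^ 2) * ((b - a / c * q * (g ^ 2 * q / T)⁻¹) *
            (a⁻¹ - c / b * q⁻¹ * ((q ^ 2)⁻¹ * (g ^ 2 * q / T))⁻¹))) -
        q * ((b * (g ^ 2 * q / T) + b⁻¹ * (g ^ 2 * q / T)⁻¹) *
            (a * (g ^ 2 * q / T)⁻¹ + a⁻¹ * (g ^ 2 * q / T)) +
          (1 - (g * q) ^ 2) * (1 - (g * q) ^ 2 / T ^ 2) *
            ((a⁻¹ - c / b * q⁻¹ * (g ^ 2 * q / T)⁻¹) *
            (b - a / c * q * (q ^ 2 * (g ^ 2 * q / T))⁻¹))) +
        (q - q⁻¹) * ((a + a⁻¹) * (b + b⁻¹) + (c + c⁻¹) * (T + T⁻¹)) := by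
      field_simp
      ring
    linear_combination hkey +
      ((q ^ 2 - (q ^ 2)⁻¹) * (b / a / (q - q⁻¹)) - q⁻¹ * ((b - a / c * q * (g ^ 2 * q / T)⁻¹) *
            (a⁻¹ - c / b * q⁻¹ * ((q ^ 2)⁻¹ * (g ^ 2 * q / T))⁻¹))) * h1 +
      (-((q ^ 2 - (q ^ 2)⁻¹) * (b / a / (q - q⁻¹))) + q *
            ((a⁻¹ - c / b * q⁻¹ * (g ^ 2 * q / T)⁻¹) *
            (b - a / c * q * (q ^ 2 * (g ^ 2 * q / T))⁻¹))) * h2
  · field_simp
    ring
  · field_simp
    ring

end Ids

/-- the module structure -/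
noncomputable def rho (q : K) (X Xi Y Z : Module.End K V) (h1 : X * Xi = 1) (h2 : Xi * X = 1)
    (h3 : q • (X * Y) - q⁻¹ • (Y * X) = (q - q⁻¹) • 1)
    (h4 : q • (Y * Z) - q⁻¹ • (Z * Y) = (q - q⁻¹) • 1)
    (h5 : q • (Z * X) - q⁻¹ • (X * Z) = (q - q⁻¹) • 1) : Uq q →ₐ[K] Module.End K V :=
  RingQuot.liftAlgHom K ⟨FreeAlgebra.lift K (fun g : Gen => match g with
    | .X => X
    | .Xi => Xi
    | .Y => Y
    | .Z => Z), by
      intro x y h
      cases h <;> simpa using by assumption⟩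

theorem rho_X (q : K) (X Xi Y Z : Module.End K V) (h1 : X * Xi = 1) (h2 : Xi * X = 1)
    (h3 : q • (X * Y) - q⁻¹ • (Y * X) = (q - q⁻¹) • 1)
    (h4 : q • (Y * Z) - q⁻¹ • (Z * Y) = (q - q⁻¹) • 1)
    (h5 : q • (Z * X) - q⁻¹ • (X * Z) = (q - q⁻¹) • 1) :
    rho q X Xi Y Z h1 h2 h3 h4 h5 (gen q .X) = X ∧ rho q X Xi Y Z h1 h2 h3 h4 h5 (gen q .Y) = Y ∧
      rho q X Xi Y Z h1 h2 h3 h4 h5 (gen q .Z) = Z := by
  refine ⟨?_, ?_, ?_⟩ <;>
  · rw [rho, gen, RingQuot.liftAlgHom_mkAlgHom_apply, FreeAlgebra.lift_ι_apply]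

end Main

/-- **Every Leonard pair of the problem carries an equitable irreducible
`U_q(sl_2)`-module structure with the three identities.** -/
theorem result {K : Type u} [Field K] {V : Type v} [AddCommGroup V] [Module K V] (d : ℕ)
    {a b c q : K} (ha : a ≠ 0) (hb : b ≠ 0) (hc : c ≠ 0) (hq : q ≠ 0) (hq4 : q ^ 4 ≠ 1)
    (A B : Module.End K V) (h : IsLeonardPair d A B)
    (hpar : HasParameterArray d A B (lam q d a) (lam q d b) (varphi q d a b c)
      (phi q d a b c)) :
    ∃ ρ : Uq q →ₐ[K] Module.End K V, IsIrreducible ρ ∧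
      Identities q d a b c A B (ρ (gen q .X)) (ρ (gen q .Y)) (ρ (gen q .Z)) := by
  obtain ⟨v, hvA, hvB⟩ := hpar.second
  have hq2 : q ^ 2 ≠ 1 := by
    intro h2
    apply hq4
    calc q ^ 4 = (q ^ 2) ^ 2 := by ring
      _ = 1 := by rw [h2, one_pow]
  have hD : ∀ k : ℕ, 1 ≤ k → k ≤ d → dc q d a b c k ≠ 0 := by
    intro k h1 h2 h0
    apply split_ne h v hvA hvB h1 h2
    rw [phi_eq hq d ha hb hc, fc, zc, h0, mul_zero, zero_mul]
  have h1 := id_one hq ha hb hq2 v hD hvA
  have h2 := id_two hq ha hb hc hq2 v hvB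
  have h3 := id_three hq ha hb hc hq2 v hq4 hD h1 h2
  obtain ⟨e1, e2, e3⟩ := rho_X q _ _ _ _ (rel_x_xi hq v) (rel_xi_x hq v)
    (rel_xy (a := a) (b := b) (c := c) hq v) (rel_yz hq v hD) (rel_zx hq v)
  refine ⟨rho q _ _ _ _ (rel_x_xi hq v) (rel_xi_x hq v)
    (rel_xy (a := a) (b := b) (c := c) hq v) (rel_yz hq v hD) (rel_zx hq v), ⟨?_, ?_⟩, ?_⟩
  · exact ⟨⟨v 0, 0, v.ne_zero 0⟩⟩
  · intro W hW
    have hX : ∀ w ∈ W, opX q v w ∈ W := fun w hw => by
      have := hW (gen q .X) w hw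
      rwa [e1] at this
    have hY : ∀ w ∈ W, opY q a b c v w ∈ W := fun w hw => by
      have := hW (gen q .Y) w hw
      rwa [e2] at this
    have hZ : ∀ w ∈ W, opZ q a b c v w ∈ W := fun w hw => by
      have := hW (gen q .Z) w hw
      rwa [e3] at this
    refine leonard_irred h W (fun w hw => ?_) (fun w hw => ?_)
    · rw [h1]
      simp only [LinearMap.sub_apply, LinearMap.add_apply, LinearMap.smul_apply,
        Module.End.mul_apply]
      exact W.add_mem (W.add_mem (W.smul_mem _ (hX w hw)) (W.smul_mem _ (hY w hw)))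
        (W.smul_mem _ (W.sub_mem (hX _ (hY w hw)) (hY _ (hX w hw))))
    · rw [h2]
      simp only [LinearMap.sub_apply, LinearMap.add_apply, LinearMap.smul_apply,
        Module.End.mul_apply]
      exact W.add_mem (W.add_mem (W.smul_mem _ (hZ w hw)) (W.smul_mem _ (hX w hw)))
        (W.smul_mem _ (W.sub_mem (hZ _ (hX w hw)) (hX _ (hZ w hw))))
  · rw [e1, e2, e3]
    exact ⟨h1, h2, h3⟩

end Pool.Agent.Results.MP_dc3d2a_al.EquitableModule
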